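import Mathlib
import Pool.Agent.Lib.MP_dc7230_lc.PL

/-!
# MP_dc7230_lc: definable closure and hulls
-/

namespace Pool.MP_dc7230_lc

open Set FirstOrder
open FirstOrder.Language hiding card

/-! ### Definable closure -/

lemma ud_formula {γ β : Type} (φ : LR.Formula (γ ⊕ Unit)) (f : γ → β) (b : β) :
    UD β (fun _ v => φ.Realize (Sum.elim (fun i => v (f i)) (fun _ => v b))) := by
  refine (UD.comp (Sum.elim f (fun _ => b))
    (⟨φ, fun _ _ => Iff.rfl⟩ : UD (γ ⊕ Unit) (fun M v => φ.Realize v))).congr fun M v => ?_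
  have : (fun s => v (Sum.elim f (fun _ => b) s) : γ ⊕ Unit → M.N) =
      Sum.elim (fun i => v (f i)) (fun _ => v b) := by
    funext s
    rcases s with i | i <;> rfl
  rw [this]

/-- (H1), parameters in `Z` -/
lemma mem_dcl_of_ud' {M : Str} {Z : Set M.N} {α : Type} [Finite α]
    {P : ∀ M : Str, (α ⊕ Unit → M.N) → Prop} (hP : UD (α ⊕ Unit) P) (z : α → M.N)
    (hz : ∀ a, z a ∈ Z) {x : M.N} (hx : ∀ y, P M (Sum.elim z (fun _ => y)) ↔ y = x) :
    x ∈ dcl M Z := by
  obtain ⟨φ, hφ⟩ := hP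
  obtain ⟨n, ⟨e⟩⟩ := Finite.exists_equiv_fin α
  refine ⟨n, φ.relabel (Sum.map e (fun u => u)), z ∘ e.symm, fun i => hz _, fun y => ?_⟩
  rw [Formula.realize_relabel, ← hx y, ← hφ]
  have : (Sum.elim (z ∘ e.symm) (fun _ => y) ∘ Sum.map e (fun u => u) : α ⊕ Unit → M.N) =
      Sum.elim z (fun _ => y) := by
    funext s
    rcases s with a | a
    · simp
    · rfl
  rw [this]

/-- (H1) -/
theorem mem_dcl_of_ud {M : Str} {Z : Set M.N} {α : Type} [Finite α]
    {P : ∀ M : Str, (α ⊕ Unit → M.N) → Prop} (hP : UD (α ⊕ Unit) P) (z : α → M.N)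
    (hz : ∀ a, z a ∈ dcl M Z) {x : M.N} (hx : ∀ y, P M (Sum.elim z (fun _ => y)) ↔ y = x) :
    x ∈ dcl M Z := by
  choose n φ w hw hφ using hz
  -- the parameters are indexed by `Σ a, Fin (n a)`
  have hQ : UD ((Σ a, Fin (n a)) ⊕ Unit) (fun M v => ∃ u : α → M.N,
      (∀ a, (φ a).Realize (Sum.elim (fun i => v (Sum.inl ⟨a, i⟩)) (fun _ => u a))) ∧
        P M (Sum.elim u (fun _ => v (Sum.inr ())))) := by
    have h1 : UD (((Σ a, Fin (n a)) ⊕ Unit) ⊕ α) (fun M v => ∀ a, (φ a).Realize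
        (Sum.elim (fun i => v (Sum.inl (Sum.inl ⟨a, i⟩))) (fun _ => v (Sum.inr a)))) :=
      UD.forall_fin fun a =>
        ud_formula (β := ((Σ a, Fin (n a)) ⊕ Unit) ⊕ α) (φ a)
          (fun i : Fin (n a) => Sum.inl (Sum.inl ⟨a, i⟩)) (Sum.inr a)
    have h2 : UD (((Σ a, Fin (n a)) ⊕ Unit) ⊕ α) (fun M v => P M
        (Sum.elim (fun a => v (Sum.inr a)) (fun _ => v (Sum.inl (Sum.inr ()))))) := by
      refine (UD.comp (Sum.elim (fun a : α => Sum.inr a) (fun _ => Sum.inl (Sum.inr ()))) hP).congr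
        fun M v => ?_
      have : (fun s => v (Sum.elim (fun a : α => Sum.inr a) (fun _ => Sum.inl (Sum.inr ())) s) :
          α ⊕ Unit → M.N) = Sum.elim (fun a => v (Sum.inr a))
            (fun _ => v (Sum.inl (Sum.inr ()))) := by
        funext s
        rcases s with i | i <;> rfl
      rw [this]
    exact (UD.exs (UD.and h1 h2)).congr fun M v => Iff.rfl
  refine mem_dcl_of_ud' hQ (fun s => w s.1 s.2) (fun s => hw s.1 s.2) fun y => ?_
  rw [← hx y]
  constructor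
  · rintro ⟨u, h1, h2⟩
    have : u = z := funext fun a => (hφ a (u a)).1 (h1 a)
    rw [this] at h2
    exact h2
  · intro h
    exact ⟨z, fun a => (hφ a (z a)).2 rfl, h⟩

/-- (H2) -/
lemma subset_dcl {M : Str} {Z : Set M.N} : Z ⊆ dcl M Z := by
  intro x hx
  exact mem_dcl_of_ud' (UD.eq (Sum.inr ()) (Sum.inl ()) : UD (Unit ⊕ Unit) _) (fun _ => x)
    (fun _ => hx) fun y => Iff.rfl

lemma dcl_mono {M : Str} {Z Z' : Set M.N} (h : Z ⊆ Z') : dcl M Z ⊆ dcl M Z' := by
  rintro x ⟨n, φ, z, hz, hx⟩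
  exact ⟨n, φ, z, fun i => h (hz i), hx⟩

lemma dcl_dcl {M : Str} {Z : Set M.N} : dcl M (dcl M Z) = dcl M Z := by
  refine Subset.antisymm ?_ subset_dcl
  rintro x ⟨n, φ, z, hz, hx⟩
  exact mem_dcl_of_ud (⟨φ, fun _ _ => Iff.rfl⟩ : UD (Fin n ⊕ Unit) (fun M v => φ.Realize v)) z hz hx

/-! ### Ordinals of a structure -/

lemma Str.IsO.of_mem {M : Str} {x y : M.N} (hx : M.IsO x) (hy : M.E y x) : M.IsO y := by
  refine ⟨fun w hw u hu => hx.2 y hy w hw u hu, fun w hw u hu t ht => ?_⟩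
  exact hx.2 w (hx.1 y hy w hw) u hu t ht

lemma PL.trich {M : Str} (hM : PL M) {a b : M.N} (ha : M.IsO a) (hb : M.IsO b) :
    M.E a b ∨ a = b ∨ M.E b a := by
  induction a using hM.wf.induction generalizing b with
  | _ a iha =>
    induction b using hM.wf.induction with
    | _ b ihb =>
      by_cases h1 : M.E a b
      · exact Or.inl h1
      by_cases h2 : M.E b a
      · exact Or.inr (Or.inr h2)
      refine Or.inr (Or.inl (hM.ext a b fun z => ⟨fun hz => ?_, fun hz => ?_⟩))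
      · rcases iha z hz (ha.of_mem hz) hb with h | h | h
        · exact h
        · exact absurd (h ▸ hz) h2
        · exact absurd (ha.1 z hz b h) h2
      · rcases ihb z hz (hb.of_mem hz) with h | h | h
        · exact absurd (hb.1 z hz a h) h1
        · exact absurd (h ▸ hz) h1
        · exact h

/-- every element is definable from ordinals -/
lemma PL.mem_dcl_isO {M : Str} (hM : PL M) (x : M.N) : x ∈ dcl M {o | M.IsO o} := by
  have key : ∀ δ : M.N, ∀ x, M.R x δ → x ∈ dcl M {o | M.IsO o} := by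
    intro δ
    induction δ using hM.wf.induction with
    | _ δ ih =>
      intro x hx
      obtain ⟨hδ, n, φ, δ', hδ', p, hp, hdef⟩ := (hM.lev x δ).1 hx
      have hO : M.IsO δ' := hδ.of_mem hδ'
      -- parameters: `none ↦ δ'`, `some i ↦ p i`
      refine mem_dcl_of_ud (α := Option (Fin n)) (ud_isDef φ (Sum.inr ()) (Sum.inl none)
        (fun i => Sum.inl (some i))) (fun o => o.elim δ' p) ?_ (x := x) fun y => ?_
      · intro a
        cases a with
        | none => exact subset_dcl hO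
        | some i => exact ih δ' hδ' (p i) (hp i)
      · constructor
        · intro hy
          exact hM.ext y x fun z => (hy z).trans (hdef z).symm
        · rintro rfl
          exact hdef
  obtain ⟨δ, -, hδ⟩ := hM.cof x
  exact key δ x hδ

/-- least ordinals are definable -/
lemma PL.exists_least {M : Str} (hM : PL M) {Z : Set M.N} {α : Type} [Finite α]
    {P : ∀ M : Str, (α ⊕ Unit → M.N) → Prop} (hP : UD (α ⊕ Unit) P) (z : α → M.N)
    (hz : ∀ a, z a ∈ dcl M Z) (hex : ∃ o, M.IsO o ∧ P M (Sum.elim z (fun _ => o))) :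
    ∃ o ∈ dcl M Z, M.IsO o ∧ P M (Sum.elim z (fun _ => o)) := by
  obtain ⟨o, ⟨ho, hPo⟩, hmin⟩ := hM.wf.has_min {o | M.IsO o ∧ P M (Sum.elim z (fun _ => o))} hex
  refine ⟨o, ?_, ho, hPo⟩
  have hQ : UD (α ⊕ Unit) (fun M v => (M.IsO (v (Sum.inr ())) ∧ P M v) ∧
      ∀ w : M.N, M.E w (v (Sum.inr ())) → ¬ P M (Sum.elim (fun a => v (Sum.inl a))
        (fun _ => w))) := by
    refine UD.and (UD.and (ud_isO _) hP) ?_
    refine (UD.all (UD.imp (UD.mem none (some (Sum.inr ()))) (UD.not (UD.comp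
      (Sum.elim (fun a => some (Sum.inl a)) (fun _ => none)) hP)))).congr fun M v => ?_
    refine forall_congr' fun w => imp_congr Iff.rfl ?_
    have : (fun s => ((Sum.elim (fun a => some (Sum.inl a)) (fun _ => none) s :
        Option (α ⊕ Unit)).elim w v) : α ⊕ Unit → M.N) =
        Sum.elim (fun a => v (Sum.inl a)) (fun _ => w) := by
      funext s
      rcases s with a | a <;> rfl
    rw [this]
  refine mem_dcl_of_ud hQ z hz fun y => ?_
  constructor
  · rintro ⟨⟨h1, h2⟩, h3⟩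
    have h3' : ∀ w, M.E w y → ¬ P M (Sum.elim z (fun _ => w)) := h3
    rcases hM.trich h1 ho with h | h | h
    · exact absurd h (hmin y ⟨h1, h2⟩)
    · exact h
    · exact absurd hPo (h3' o h)
  · rintro rfl
    refine ⟨⟨ho, hPo⟩, fun w hw hPw => ?_⟩
    exact hmin w ⟨ho.of_mem hw, hPw⟩ hw

lemma hPc {k : ℕ} {α : Type} {P : ∀ M : Str, (α ⊕ Fin (k + 1) → M.N) → Prop}
    (hP : UD (α ⊕ Fin (k + 1)) P) :
    UD ((α ⊕ Unit) ⊕ Fin k) (fun M v => P M (Sum.elim (fun a => v (Sum.inl (Sum.inl a)))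
      (Fin.cons (v (Sum.inl (Sum.inr ()))) (fun i => v (Sum.inr i))))) := by
  refine (UD.comp (Sum.elim (fun a => Sum.inl (Sum.inl a))
    (Fin.cons (Sum.inl (Sum.inr ())) (fun i => Sum.inr i))) hP).congr fun M v => ?_
  have : (fun s => v (Sum.elim (fun a => Sum.inl (Sum.inl a))
      (Fin.cons (Sum.inl (Sum.inr ())) (fun i => Sum.inr i)) s) : α ⊕ Fin (k + 1) → M.N) =
      Sum.elim (fun a => v (Sum.inl (Sum.inl a)))
        (Fin.cons (v (Sum.inl (Sum.inr ()))) (fun i => v (Sum.inr i))) := by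
    funext s
    rcases s with a | i
    · rfl
    · refine Fin.cases ?_ (fun i => ?_) i <;> rfl
  rw [this]

/-- a nonempty definable set of tuples of ordinals has a definable element -/
lemma PL.exists_tuple {M : Str} (hM : PL M) {Z : Set M.N} (k : ℕ) :
    ∀ {α : Type} [Finite α] {P : ∀ M : Str, (α ⊕ Fin k → M.N) → Prop}
      (_ : UD (α ⊕ Fin k) P) (z : α → M.N) (_ : ∀ a, z a ∈ dcl M Z)
      (_ : ∃ o : Fin k → M.N, (∀ i, M.IsO (o i)) ∧ P M (Sum.elim z o)),
      ∃ o : Fin k → M.N, (∀ i, o i ∈ dcl M Z) ∧ P M (Sum.elim z o) := by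
  induction k with
  | zero =>
    intro α _ P hP z hz ⟨o, _, ho⟩
    exact ⟨o, fun i => i.elim0, ho⟩
  | succ k ih =>
    intro α _ P hP z hz ⟨o, hO, ho⟩
    -- first coordinate
    have hQ : UD (α ⊕ Unit) (fun M v => ∃ w : Fin k → M.N, (∀ i, M.IsO (w i)) ∧
        P M (Sum.elim (fun a => v (Sum.inl a)) (Fin.cons (v (Sum.inr ())) w))) := by
      have h1 : UD ((α ⊕ Unit) ⊕ Fin k) (fun M v => ∀ i : Fin k, M.IsO (v (Sum.inr i))) :=
        UD.forall_fin fun i : Fin k => ud_isO (Sum.inr i)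
      refine (UD.exs (UD.and h1 (hPc hP))).congr fun M v => Iff.rfl
    have hcons : (Fin.cons (o 0) (fun i => o i.succ) : Fin (k + 1) → M.N) = o := by
      funext i
      refine Fin.cases ?_ (fun i => ?_) i <;> rfl
    obtain ⟨o0, ho0, -, w, hw, hPw⟩ := hM.exists_least hQ z hz
      ⟨o 0, hO 0, fun i => o i.succ, fun i => hO _, by
        show P M (Sum.elim z (Fin.cons (o 0) (fun i => o i.succ)))
        rw [hcons]
        exact ho⟩
    -- the other coordinates
    have hQ2 := hPc hP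
    obtain ⟨w', hw', hPw'⟩ := ih hQ2 (Sum.elim z (fun _ => o0)) (by
      rintro (a | a)
      · exact hz a
      · exact ho0) ⟨w, hw, hPw⟩
    refine ⟨Fin.cons o0 w', fun i => ?_, hPw'⟩
    refine Fin.cases ho0 (fun i => ?_) i
    exact hw' i

/-- (H3) -/
theorem El_dcl {M : Str} (hM : PL M) (Z : Set M.N) : El (M.sub (dcl M Z)) M (fun x => x.1) := by
  refine El_sub fun n φ x hx y hy => ?_
  obtain ⟨k, θ, o, ho, hθ⟩ := hM.mem_dcl_isO y
  have hP : UD (Fin n ⊕ Fin k) (fun M v => ∃ y' : M.N,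
      φ.Realize (Sum.elim (fun i => v (Sum.inl i)) (fun _ => y')) ∧
      ∀ y'' : M.N, θ.Realize (Sum.elim (fun i => v (Sum.inr i)) (fun _ => y'')) ↔ y'' = y') := by
    exact (UD.ex (UD.and (ud_formula φ (fun i => some (Sum.inl i)) none) (UD.all (UD.iff
      (ud_formula θ (fun i => some (some (Sum.inr i))) none) (UD.eq none (some none)))))).congr
        fun M v => Iff.rfl
  obtain ⟨o', ho', y', hy', hθ'⟩ := hM.exists_tuple (Z := Z) k hP x hx ⟨o, ho, y, hy, hθ⟩
  refine ⟨y', ?_, hy'⟩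
  exact mem_dcl_of_ud (⟨θ, fun _ _ => Iff.rfl⟩ : UD (Fin k ⊕ Unit) (fun M v => θ.Realize v))
    o' ho' hθ'

/-- (H4) -/
theorem dcl_image {M M' : Str} {j : M.N → M'.N} (hj : El M M' j) (Z : Set M.N) :
    dcl M' (j '' Z) = j '' dcl M Z := by
  have hud : ∀ {n : ℕ} (φ : LR.Formula (Fin n ⊕ Unit)), UD (Fin n ⊕ Unit) (fun M v =>
      ∀ y : M.N, φ.Realize (Sum.elim (fun i => v (Sum.inl i)) (fun _ => y)) ↔
        y = v (Sum.inr ())) := by
    intro n φ
    exact (UD.all (UD.iff (ud_formula φ (fun i => some (Sum.inl i)) none)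
      (UD.eq none (some (Sum.inr ()))))).congr fun M v => Iff.rfl
  have hex : ∀ {n : ℕ} (φ : LR.Formula (Fin n ⊕ Unit)), UD (Fin n) (fun M v =>
      ∃ x : M.N, ∀ y : M.N, φ.Realize (Sum.elim v (fun _ => y)) ↔ y = x) := by
    intro n φ
    refine (UD.ex (UD.comp (Sum.elim (fun i => some i) (fun _ => none)) (hud φ))).congr
      fun M v => Iff.rfl
  apply Subset.antisymm
  · rintro x ⟨n, φ, z, hz, hx⟩
    choose w hw hwz using hz
    have hz' : z = fun i => j (w i) := funext fun i => (hwz i).symm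
    obtain ⟨x', hx'⟩ := (hj.ud (hex φ) w).1 ⟨x, by rw [← hz']; exact hx⟩
    refine ⟨x', ⟨n, φ, w, hw, hx'⟩, ?_⟩
    have h1 := (hj.ud (hud φ) (Sum.elim w (fun _ => x'))).2 hx'
    have h2 := (h1 (j x')).2 rfl
    have h3 : φ.Realize (Sum.elim z (fun _ => j x')) := by
      rw [hz']
      exact h2
    exact (hx _).1 h3
  · rintro _ ⟨x, ⟨n, φ, z, hz, hx⟩, rfl⟩
    refine ⟨n, φ, fun i => j (z i), fun i => ⟨z i, hz i, rfl⟩, ?_⟩
    exact (hj.ud (hud φ) (Sum.elim z (fun _ => x))).2 hx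

/-! ### Cardinalities -/

lemma mk_sig_le {F : ℕ → Type} (hF : ∀ n, Countable (F n)) (X : Type 1) :
    Cardinal.mk (Σ n, F n × (Fin n → X)) ≤ max Cardinal.aleph0 (Cardinal.mk X) := by
  rw [Cardinal.mk_sigma]
  refine (Cardinal.sum_le_sum _ (fun _ => max Cardinal.aleph0 (Cardinal.mk X)) fun n => ?_).trans ?_
  · rw [Cardinal.mk_prod]
    refine Cardinal.mul_le_of_le (le_max_left _ _) ?_ ?_
    · refine le_trans ?_ (le_max_left _ _)
      have := Cardinal.mk_le_aleph0 (α := F n)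
      rw [← Cardinal.lift_aleph0.{1, 0}]
      exact Cardinal.lift_le.2 this
    · rw [Cardinal.lift_id', Cardinal.mk_arrow]
      simp only [Cardinal.lift_id', Cardinal.mk_fin, Cardinal.lift_natCast]
      rw [max_comm]
      exact Cardinal.power_nat_le_max
  · rw [Cardinal.sum_const]
    refine Cardinal.mul_le_of_le (le_max_left _ _) ?_ ?_
    · simp
    · simp

instance (n : ℕ) : Countable (LR.Formula (Fin n ⊕ Unit)) := by
  have h : Cardinal.mk (Σ k, LR.BoundedFormula (Fin n ⊕ Unit) k) ≤ Cardinal.aleph0 := by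
    refine BoundedFormula.card_le.trans (max_le le_rfl ?_)
    refine Cardinal.add_le_of_le le_rfl ?_ ?_
    · rw [Cardinal.lift_le_aleph0]
      exact Cardinal.mk_le_aleph0
    · rw [Cardinal.lift_le_aleph0]
      exact Cardinal.mk_le_aleph0 (α := LR.Symbols)
  have h2 : Countable (Σ k, LR.BoundedFormula (Fin n ⊕ Unit) k) := Cardinal.mk_le_aleph0_iff.1 h
  have h3 : Function.Injective (fun φ : LR.Formula (Fin n ⊕ Unit) =>
      (⟨0, φ⟩ : Σ k, LR.BoundedFormula (Fin n ⊕ Unit) k)) := by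
    intro φ ψ h
    simpa using h
  exact h3.countable

/-- (H5) -/
theorem mk_dcl_le {M : Str} (Z : Set M.N) :
    Cardinal.mk (dcl M Z) ≤ max Cardinal.aleph0 (Cardinal.mk Z) := by
  refine le_trans ?_ (mk_sig_le (F := fun n => LR.Formula (Fin n ⊕ Unit))
    (fun n => inferInstance) Z)
  have h : ∀ x : dcl M Z, ∃ s : Σ n, LR.Formula (Fin n ⊕ Unit) × (Fin n → Z),
      ∀ y, s.2.1.Realize (Sum.elim (fun i => (s.2.2 i : M.N)) (fun _ => y)) ↔ y = x := by
    rintro ⟨x, n, φ, z, hz, hx⟩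
    exact ⟨⟨n, φ, fun i => ⟨z i, hz i⟩⟩, hx⟩
  choose f hf using h
  refine Cardinal.mk_le_of_injective (f := f) fun x y hxy => ?_
  have h1 := (hf x x).2 rfl
  rw [hxy] at h1
  exact Subtype.ext ((hf y x).1 h1)

namespace Fml

/-- Gödel numbers. -/
def code : {n : ℕ} → Fml n → ℕ
  | _, .bot => Nat.pair 0 0
  | _, .eq i j => Nat.pair 1 (Nat.pair i j)
  | _, .mem i j => Nat.pair 2 (Nat.pair i j)
  | _, .imp φ ψ => Nat.pair 3 (Nat.pair φ.code ψ.code)
  | _, .all φ => Nat.pair 4 φ.code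

lemma code_inj {n : ℕ} {φ ψ : Fml n} (h : φ.code = ψ.code) : φ = ψ := by
  induction φ with
  | bot => cases ψ <;> simp [code, Nat.pair_eq_pair] at h ⊢
  | eq i j =>
    cases ψ <;> simp [code, Nat.pair_eq_pair] at h ⊢
    exact ⟨Fin.ext h.1, Fin.ext h.2⟩
  | mem i j =>
    cases ψ <;> simp [code, Nat.pair_eq_pair] at h ⊢
    exact ⟨Fin.ext h.1, Fin.ext h.2⟩
  | imp φ₁ φ₂ ih₁ ih₂ =>
    cases ψ <;> simp [code, Nat.pair_eq_pair] at h ⊢
    exact ⟨ih₁ h.1, ih₂ h.2⟩
  | all φ ih =>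
    cases ψ <;> simp [code, Nat.pair_eq_pair] at h ⊢
    exact ih h

instance (n : ℕ) : Countable (Fml n) :=
  Function.Injective.countable (f := code) fun _ _ h => code_inj h

end Fml

/-- (H6) -/
theorem mk_Lset_le (β : Ordinal.{0}) : Cardinal.mk {x // x ∈ Lset β} ≤
    max Cardinal.aleph0 (Cardinal.lift.{1} β.card) := by
  induction β using WellFoundedLT.induction with
  | _ β ih =>
    have h : ∀ x : {x // x ∈ Lset β}, ∃ s : Σ γ : Iio β, Σ n, Fml (n + 1) ×
        (Fin n → {x // x ∈ Lset γ.1}), x.1 ⊆ Lset s.1.1 ∧ ∀ z ∈ Lset s.1.1,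
          z ∈ x.1 ↔ Sat (Lset s.1.1) s.2.2.1 (Fin.cons z (fun i => (s.2.2.2 i).1)) := by
      rintro ⟨x, hx⟩
      obtain ⟨γ, hγ, h1⟩ := mem_Lset.1 hx
      obtain ⟨h2, n, φ, p, hp, h3⟩ := mem_DefSet.1 h1
      exact ⟨⟨⟨γ, hγ⟩, n, φ, fun i => ⟨p i, hp i⟩⟩, h2, h3⟩
    choose f hf1 hf2 using h
    have hinj : Function.Injective f := by
      intro x y hxy
      have a1 := hf1 x
      have a2 := hf2 x
      rw [hxy] at a1 a2
      apply Subtype.ext
      apply ZFSet.ext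
      intro z
      constructor
      · intro hz
        exact (hf2 y z (a1 hz)).2 ((a2 z (a1 hz)).1 hz)
      · intro hz
        exact (a2 z (hf1 y hz)).2 ((hf2 y z (hf1 y hz)).1 hz)
    refine (Cardinal.mk_le_of_injective hinj).trans ?_
    rw [Cardinal.mk_sigma]
    refine (Cardinal.sum_le_sum _ (fun _ => max Cardinal.aleph0 (Cardinal.lift.{1} β.card))
      fun γ => ?_).trans ?_
    · refine (mk_sig_le (F := fun n => Fml (n + 1)) (fun n => inferInstance) _).trans ?_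
      refine max_le (le_max_left _ _) ((ih γ.1 γ.2).trans (max_le_max le_rfl ?_))
      exact Cardinal.lift_le.2 (Ordinal.card_le_card γ.2.le)
    · rw [Cardinal.sum_const, Cardinal.mk_Iio_ordinal]
      refine Cardinal.mul_le_of_le (le_max_left _ _) ?_ ?_
      · simp
      · simp

end Pool.MP_dc7230_lc
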