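import Mathlib
import Pool.Agent.Lib.MP_dc7230_lc.FiltI

/-!
# MP_dc7230_lc: existence of the filtration
-/

namespace Pool.MP_dc7230_lc

open Set

/-- the order type of `A ∩ ξ` -/
noncomputable def cnt (A : Set Ordinal.{0}) (ξ : Ordinal.{0}) : Ordinal.{0} :=
  ⨆ η : {η : Iio ξ // η.1 ∈ A}, Order.succ (cnt A η.1.1)
termination_by ξ
decreasing_by exact η.1.2

namespace cnt
variable {A : Set Ordinal.{0}}

lemma lt {η ξ : Ordinal.{0}} (hη : η ∈ A) (h : η < ξ) : cnt A η < cnt A ξ := by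
  rw [cnt.eq_1 A ξ, ← Order.succ_le_iff]
  exact Ordinal.le_iSup (fun η : {η : Iio ξ // η.1 ∈ A} => Order.succ (cnt A η.1.1)) ⟨⟨η, h⟩, hη⟩

lemma exists_lt {ξ ζ : Ordinal.{0}} (h : ζ < cnt A ξ) :
    ∃ η ∈ A, η < ξ ∧ ζ ≤ cnt A η := by
  rw [cnt.eq_1 A ξ, Ordinal.lt_iSup_iff] at h
  obtain ⟨⟨⟨η, h1⟩, h2⟩, h3⟩ := h
  exact ⟨η, h2, h1, Order.lt_succ_iff.1 h3⟩

lemma surj {ξ ζ : Ordinal.{0}} (h : ζ < cnt A ξ) : ∃ η ∈ A, η < ξ ∧ cnt A η = ζ := by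
  induction ξ using WellFoundedLT.induction with
  | _ ξ ih =>
    obtain ⟨η, h1, h2, h3⟩ := exists_lt h
    rcases h3.eq_or_lt with h4 | h4
    · exact ⟨η, h1, h2, h4.symm⟩
    · obtain ⟨η', h5, h6, h7⟩ := ih η h2 h4
      exact ⟨η', h5, h6.trans h2, h7⟩

lemma le_of_subset {γ : Ordinal.{0}} (hA : ∀ η < γ, η ∈ A) {ξ : Ordinal.{0}} (h : ξ ≤ γ) :
    ξ ≤ cnt A ξ := by
  induction ξ using WellFoundedLT.induction with
  | _ ξ ih =>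
    by_contra hcon
    push Not at hcon
    have h1 := ih _ hcon (hcon.le.trans h)
    exact absurd (h1.trans_lt (lt (hA _ (hcon.trans_le h)) hcon)) (lt_irrefl _)

lemma mono {ξ ξ' : Ordinal.{0}} (h : ξ ≤ ξ') : cnt A ξ ≤ cnt A ξ' := by
  by_contra hcon
  push Not at hcon
  obtain ⟨η, h1, h2, h3⟩ := surj hcon
  exact absurd (h3 ▸ lt h1 (h2.trans_le h)) (lt_irrefl _)

lemma le {ξ : Ordinal.{0}} : cnt A ξ ≤ ξ := by
  induction ξ using WellFoundedLT.induction with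
  | _ ξ ih =>
    by_contra hcon
    push Not at hcon
    obtain ⟨η, h1, h2, h3⟩ := surj hcon
    have := ih η h2
    rw [h3] at this
    exact absurd h2 (not_lt.2 this)

lemma lt_iff {η ξ : Ordinal.{0}} (hη : η ∈ A) : cnt A η < cnt A ξ ↔ η < ξ := by
  refine ⟨fun h => ?_, lt hη⟩
  by_contra hcon
  push Not at hcon
  exact absurd h (not_lt.2 (mono hcon))

lemma inj {η ξ : Ordinal.{0}} (hη : η ∈ A) (hξ : ξ ∈ A) (h : cnt A η = cnt A ξ) : η = ξ := by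
  rcases lt_trichotomy η ξ with h1 | h1 | h1
  · exact absurd h (lt hη h1).ne
  · exact h1
  · exact absurd h (lt hξ h1).ne'

end cnt

/-- the `ζ`-th element of `A` -/
noncomputable def nth (A : Set Ordinal.{0}) (ζ : Ordinal.{0}) : Ordinal.{0} :=
  open Classical in if h : ∃ η ∈ A, cnt A η = ζ then h.choose else 0

lemma nth_spec {A : Set Ordinal.{0}} {μ ζ : Ordinal.{0}} (h : ζ < cnt A μ) :
    nth A ζ ∈ A ∧ nth A ζ < μ ∧ cnt A (nth A ζ) = ζ := by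
  have h1 : ∃ η ∈ A, cnt A η = ζ := by
    obtain ⟨η, h1, -, h3⟩ := cnt.surj h
    exact ⟨η, h1, h3⟩
  have h2 : nth A ζ = h1.choose := by
    unfold nth
    rw [dif_pos h1]
  rw [h2]
  refine ⟨h1.choose_spec.1, ?_, h1.choose_spec.2⟩
  rw [← cnt.lt_iff h1.choose_spec.1, h1.choose_spec.2]
  exact h

lemma nth_cnt {A : Set Ordinal.{0}} {μ η : Ordinal.{0}} (hη : η ∈ A) (h : η < μ) :
    nth A (cnt A η) = η := by
  have := nth_spec (cnt.lt hη h)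
  exact cnt.inj this.1 hη this.2.2

lemma exists_enum {μ : Ordinal.{0}} (h0 : 0 < μ) (hμ : μ.card ≤ Cardinal.aleph 2) :
    ∃ g : Ordinal.{0} → Ordinal.{0}, (∀ ξ, g ξ < μ) ∧
      ∀ η < μ, ∃ ξ < Ordinal.omega 2, g ξ = η := by
  have h1 : Cardinal.mk (Iio μ) ≤ Cardinal.mk (Iio (Ordinal.omega.{0} 2)) := by
    rw [Cardinal.mk_Iio_ordinal, Cardinal.mk_Iio_ordinal, Cardinal.lift_le, Ordinal.card_omega]
    exact hμ
  obtain ⟨f⟩ := h1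
  have hne : Nonempty (Iio μ) := ⟨⟨0, h0⟩⟩
  classical
  refine ⟨fun ξ => if h : ξ < Ordinal.omega 2 then (Function.invFun f ⟨ξ, h⟩).1 else 0,
    fun ξ => ?_, fun η hη => ?_⟩
  · dsimp only
    split_ifs
    · exact (Function.invFun f _).2
    · exact h0
  · refine ⟨(f ⟨η, hη⟩).1, (f ⟨η, hη⟩).2, ?_⟩
    have h2 : (f ⟨η, hη⟩).1 < Ordinal.omega 2 := (f ⟨η, hη⟩).2
    dsimp only
    rw [dif_pos h2]
    have h3 : (⟨(f ⟨η, hη⟩).1, h2⟩ : Iio (Ordinal.omega.{0} 2)) = f ⟨η, hη⟩ := rfl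
    rw [h3, Function.leftInverse_invFun f.injective]

/-- existence of the filtration -/
theorem exists_filt (μ ν : Ordinal.{0}) (hν : Ordinal.omega 2 ≤ ν) (hνμ : ν < μ)
    (hμ : μ.card ≤ Cardinal.aleph 2) : Nonempty (Filt μ ν) := by
  have h0 : 0 < μ := (bot_le : (0:Ordinal.{0}) ≤ ν).trans_lt hνμ
  obtain ⟨g, hg1, hg2⟩ := exists_enum h0 hμ
  let Θ : Ordinal.{0} → Set Ordinal.{0} := fun γ => insert ν (Iio γ ∪ g '' Iio γ)
  have hΘν : ∀ γ, ν ∈ Θ γ := fun γ => mem_insert _ _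
  have hΘmono : ∀ {δ γ}, δ ≤ γ → Θ δ ⊆ Θ γ := by
    intro δ γ h
    exact insert_subset_insert (union_subset_union (Iio_subset_Iio h)
      (image_mono (Iio_subset_Iio h)))
  have hΘγ : ∀ γ, ∀ η < γ, η ∈ Θ γ := fun γ η h => mem_insert_of_mem _ (Or.inl h)
  have htop : ∀ η < μ, η ∈ Θ (Ordinal.omega 2) := by
    intro η h
    obtain ⟨ξ, h1, rfl⟩ := hg2 η h
    exact mem_insert_of_mem _ (Or.inr ⟨ξ, h1, rfl⟩)
  have htop' : ∀ ξ ≤ μ, cnt (Θ (Ordinal.omega 2)) ξ = ξ := fun ξ h =>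
    le_antisymm cnt.le (cnt.le_of_subset htop h)
  refine ⟨{
    m := fun γ => cnt (Θ γ) μ
    n := fun γ => cnt (Θ γ) ν
    e := fun δ γ ξ => cnt (Θ γ) (nth (Θ δ) ξ)
    m_top := htop' μ le_rfl
    n_top := htop' ν hνμ.le
    m_lt := ?_
    n_lt := fun γ _ => cnt.lt (hΘν γ) hνμ
    n_ge := fun γ h => (cnt.le_of_subset (hΘγ γ) le_rfl).trans (cnt.mono (h.trans hν))
    e_lt := ?_
    e_mono := ?_
    e_refl := fun γ ξ _ h => (nth_spec h).2.2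
    e_comp := ?_
    e_n := ?_
    e_cov := ?_ }⟩
  · intro γ hγ
    rw [← Cardinal.ord_aleph, Cardinal.lt_ord] at hγ ⊢
    have h1 : Cardinal.mk (Iio (cnt (Θ γ) μ)) ≤ Cardinal.mk (Θ γ) := by
      refine Cardinal.mk_le_of_injective (f := fun ζ : Iio (cnt (Θ γ) μ) =>
        (⟨nth (Θ γ) ζ.1, (nth_spec ζ.2).1⟩ : Θ γ)) ?_
      intro ζ ζ' h
      have h2 : nth (Θ γ) ζ.1 = nth (Θ γ) ζ'.1 := congrArg Subtype.val h
      apply Subtype.ext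
      rw [← (nth_spec ζ.2).2.2, ← (nth_spec ζ'.2).2.2, h2]
    have h2 : Cardinal.mk (Θ γ) < Cardinal.lift.{1} (Cardinal.aleph.{0} 2) := by
      have h3 : Cardinal.mk (Iio γ) < Cardinal.lift.{1} (Cardinal.aleph.{0} 2) := by
        rw [Cardinal.mk_Iio_ordinal, Cardinal.lift_lt]
        exact hγ
      have h4 : Cardinal.aleph0 ≤ Cardinal.lift.{1} (Cardinal.aleph.{0} 2) := by simp
      refine (Cardinal.mk_insert_le).trans_lt (Cardinal.add_lt_of_lt h4 ?_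
        (Cardinal.one_lt_aleph0.trans_le h4))
      refine (Cardinal.mk_union_le _ _).trans_lt (Cardinal.add_lt_of_lt h4 h3 ?_)
      exact Cardinal.mk_image_le.trans_lt h3
    have h3 := h1.trans_lt h2
    rw [Cardinal.mk_Iio_ordinal, Cardinal.lift_lt] at h3
    exact h3
  · intro δ γ ξ h _ hξ
    exact cnt.lt (hΘmono h (nth_spec hξ).1) (nth_spec hξ).2.1
  · intro δ γ ξ ξ' h _ hξ hξ'
    have h1 := nth_spec (hξ.trans hξ')
    have h2 := nth_spec hξ'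
    refine cnt.lt (hΘmono h h1.1) ?_
    rw [← cnt.lt_iff h1.1, h1.2.2, h2.2.2]
    exact hξ
  · intro δ γ γ' ξ h _ _ hξ
    show cnt (Θ γ') (nth (Θ γ) (cnt (Θ γ) (nth (Θ δ) ξ))) = cnt (Θ γ') (nth (Θ δ) ξ)
    rw [nth_cnt (hΘmono h (nth_spec hξ).1) (nth_spec hξ).2.1]
  · intro δ γ _ _
    show cnt (Θ γ) (nth (Θ δ) (cnt (Θ δ) ν)) = cnt (Θ γ) ν
    rw [nth_cnt (hΘν δ) hνμ]
  · intro γ h1 h2 _ ζ hζ
    obtain ⟨h3, h4, h5⟩ := nth_spec hζ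
    have h6 : ∃ δ < γ, nth (Θ γ) ζ ∈ Θ δ := by
      rcases h3 with h3 | h3 | ⟨ξ, hξ, h3⟩
      · exact ⟨0, h1, by rw [h3]; exact hΘν 0⟩
      · obtain ⟨ε, h7, h8⟩ := h2 _ h3
        exact ⟨ε, h7, hΘγ ε _ h8⟩
      · obtain ⟨ε, h7, h8⟩ := h2 ξ hξ
        exact ⟨ε, h7, mem_insert_of_mem _ (Or.inr ⟨ξ, h8, h3⟩)⟩
    obtain ⟨δ, h7, h8⟩ := h6
    refine ⟨δ, h7, cnt (Θ δ) (nth (Θ γ) ζ), cnt.lt h8 h4, ?_⟩
    show cnt (Θ γ) (nth (Θ δ) (cnt (Θ δ) (nth (Θ γ) ζ))) = ζ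
    rw [nth_cnt h8 h4, h5]

end Pool.MP_dc7230_lc
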