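import Mathlib
import Pool.Agent.Lib.MP_dc7230_lc.Codes
import Pool.Agent.Lib.MP_dc7230_lc.NewV
import Pool.Agent.Lib.MP_dc7230_lc_h77.Hull

/-!
# MP_dc7230_lc: condensation for subsets, top codes, the number of codes
-/

namespace Pool.MP_dc7230_lc

open Set

/-! ### Cardinalities -/

lemma mk_Iic_le_top {m : Ordinal.{0}} {κ : Cardinal.{0}} (hκ : Cardinal.aleph0 ≤ κ)
    (h : m.card ≤ κ) : Cardinal.mk (Iic m) ≤ Cardinal.lift.{1} κ := by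
  rw [← Order.Iio_succ, Cardinal.mk_Iio_ordinal, Cardinal.lift_le, Order.succ_eq_add_one,
    Ordinal.card_add, Ordinal.card_one]
  exact Cardinal.add_le_of_le hκ h (Cardinal.one_le_aleph0.trans hκ)

lemma mk_insert_Iic_le {X : Type 1} {m : Ordinal.{0}} {κ : Cardinal.{0}}
    (hκ : Cardinal.aleph0 ≤ κ) (h : m.card ≤ κ) (a : X) (o : Ordinal.{0} → X) :
    Cardinal.mk {z | z = a ∨ ∃ ξ ≤ m, o ξ = z} ≤ Cardinal.lift.{1} κ := by
  have h1 : {z | z = a ∨ ∃ ξ ≤ m, o ξ = z} = insert a (o '' Iic m) := by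
    ext z
    simp [Set.mem_insert_iff]
  rw [h1]
  refine Cardinal.mk_insert_le.trans (Cardinal.add_le_of_le ?_ ?_ ?_)
  · rw [← Cardinal.lift_aleph0.{1, 0}]
    exact Cardinal.lift_le.2 hκ
  · exact Cardinal.mk_image_le.trans (mk_Iic_le_top hκ h)
  · rw [← Cardinal.lift_one.{0, 1}]
    exact Cardinal.lift_le.2 (Cardinal.one_le_aleph0.trans hκ)

lemma card_le_of_mk_LM {β : Ordinal.{0}} {κ : Cardinal.{0}}
    (h : Cardinal.mk (LM β).N ≤ Cardinal.lift.{1} κ) : β.card ≤ κ := by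
  rw [← Cardinal.lift_le.{1}, ← Cardinal.mk_Iio_ordinal]
  refine le_trans (Cardinal.mk_le_of_injective (f := fun ζ : Iio β => (LM.o ζ.1 ζ.2 : (LM β).N))
    fun ζ ζ' hζ => ?_) h
  exact Subtype.ext (Ordinal.toZFSet_injective (congrArg Subtype.val hζ))

lemma mk_dcl_le' {M : Str} {Z : Set M.N} {κ : Cardinal.{0}} (hκ : Cardinal.aleph0 ≤ κ)
    (h : Cardinal.mk Z ≤ Cardinal.lift.{1} κ) : Cardinal.mk (dcl M Z) ≤ Cardinal.lift.{1} κ := by
  refine (mk_dcl_le Z).trans (max_le ?_ h)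
  rw [← Cardinal.lift_aleph0.{1, 0}]
  exact Cardinal.lift_le.2 hκ

lemma card_le_aleph {m i : Ordinal.{0}} (h : m < Ordinal.omega (i + 1)) :
    m.card ≤ Cardinal.aleph i := by
  rw [← Cardinal.ord_aleph, Cardinal.lt_ord, ← Cardinal.succ_aleph, Order.lt_succ_iff] at h
  exact h

lemma lt_omega_of_card {m i : Ordinal.{0}} (h : m.card ≤ Cardinal.aleph i) :
    m < Ordinal.omega (i + 1) := by
  rw [← Cardinal.ord_aleph, Cardinal.lt_ord, ← Cardinal.succ_aleph, Order.lt_succ_iff]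
  exact h

/-! ### The collapse of a hull -/

/-- elements of a substructure -/
def Str.inc {M : Str} {X : Set M.N} (x : M.N) (h : x ∈ X) : (M.sub X).N := ⟨x, h⟩

lemma fix_step {β β' : Ordinal.{0}} {X : Set (LM β).N} (e : ((LM β).sub X).N ≃ (LM β').N)
    (hE : ∀ x y, (LM β').E (e x) (e y) ↔ ((LM β).sub X).E x y) (x : ((LM β).sub X).N)
    (h : ∀ z ∈ x.1.1, ∃ y : ((LM β).sub X).N, y.1.1 = z ∧ (e y).1 = z) : (e x).1 = x.1.1 := by
  ext z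
  constructor
  · intro hz
    obtain ⟨w, hw⟩ := e.surjective (⟨z, Lset_trans (e x).2 hz⟩ : (LM β').N)
    have hwz : (e w).1 = z := congrArg Subtype.val hw
    have h2 : w.1.1 ∈ x.1.1 := (hE w x).1 (show (e w).1 ∈ (e x).1 by rw [hwz]; exact hz)
    obtain ⟨y, hy, hy'⟩ := h _ h2
    have h3 : y = w := Subtype.ext (Subtype.ext hy)
    rw [h3, hwz] at hy'
    rw [hy']
    exact h2
  · intro hz
    obtain ⟨y, hy, hy'⟩ := h z hz
    have h1 := (hE y x).2 (show y.1.1 ∈ x.1.1 by rw [hy]; exact hz)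
    have h2 : (e y).1 ∈ (e x).1 := h1
    rwa [hy'] at h2

theorem condense {κ : Cardinal.{0}} (hκ : Cardinal.aleph0 ≤ κ) {ν : Ordinal.{0}}
    (hν : ν.card ≤ κ) {a : ZFSet.{0}} (ha : IsL a) (hs : a ⊆ ν.toZFSet) :
    ∃ β : Ordinal.{0}, β.card ≤ κ ∧ a ∈ Lset β := by
  obtain ⟨α, hα⟩ := ha
  let β := max α (ν + 1) + Ordinal.omega0
  have hβ : Order.IsSuccLimit β := Ordinal.isSuccLimit_add _ Ordinal.isSuccLimit_omega0
  have hαβ : α ≤ β := (le_max_left _ _).trans (le_self_add)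
  have hνβ : ν < β := by
    refine lt_of_lt_of_le ?_ ((le_max_right α (ν + 1)).trans le_self_add)
    rw [← Order.succ_eq_add_one]
    exact Order.lt_succ ν
  let a' : (LM β).N := ⟨a, Lset_mono hαβ hα⟩
  let o : Ordinal.{0} → (LM β).N := fun ξ => if h : ξ < β then LM.o ξ h else a'
  have ho : ∀ ξ (h : ξ < β), o ξ = LM.o ξ h := fun ξ h => dif_pos h
  let Z : Set (LM β).N := {z | z = a' ∨ ∃ ξ ≤ ν, o ξ = z}
  have hEl := El_dcl (PL_LM hβ) Z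
  have hPL := PL.of_el hEl (PL_LM hβ)
  have : Small.{0} ((LM β).sub (dcl (LM β) Z)).N :=
    inferInstanceAs (Small.{0} (dcl (LM β) Z))
  have haZ : a' ∈ dcl (LM β) Z := subset_dcl (Or.inl rfl)
  have : Nonempty ((LM β).sub (dcl (LM β) Z)).N := ⟨Str.inc a' haZ⟩
  obtain ⟨β', hβ', e, hE, hR⟩ := exists_collapse hPL
  have hoZ : ∀ ξ ≤ ν, o ξ ∈ dcl (LM β) Z := fun ξ hξ => subset_dcl (Or.inr ⟨ξ, hξ, rfl⟩)
  have h1 : ∀ ξ, ∀ h : ξ ≤ ν, (e (Str.inc (o ξ) (hoZ ξ h))).1 = ξ.toZFSet := by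
    intro ξ
    induction ξ using WellFoundedLT.induction with
    | _ ξ ih =>
      intro hξ
      have h2 : (o ξ).1 = ξ.toZFSet := by rw [ho ξ (hξ.trans_lt hνβ)]; rfl
      refine (fix_step e hE _ ?_).trans h2
      intro z (hz : z ∈ (o ξ).1)
      rw [h2] at hz
      obtain ⟨ζ, hζ, rfl⟩ := Ordinal.mem_toZFSet_iff.1 hz
      refine ⟨Str.inc (o ζ) (hoZ ζ (hζ.le.trans hξ)), ?_, ih ζ hζ (hζ.le.trans hξ)⟩
      show (o ζ).1 = _
      rw [ho ζ ((hζ.trans_le hξ).trans hνβ)]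
      rfl
  have h2 : (e (Str.inc a' haZ)).1 = a := by
    refine fix_step e hE _ ?_
    intro z hz
    obtain ⟨ζ, hζ, rfl⟩ := Ordinal.mem_toZFSet_iff.1 (hs hz)
    refine ⟨Str.inc (o ζ) (hoZ ζ hζ.le), ?_, h1 ζ hζ.le⟩
    show (o ζ).1 = _
    rw [ho ζ (hζ.trans hνβ)]
    rfl
  refine ⟨β', card_le_of_mk_LM ?_, ?_⟩
  · rw [← Cardinal.mk_congr e]
    exact mk_dcl_le' hκ (mk_insert_Iic_le hκ hν a' o)
  · have := (e (Str.inc a' haZ)).2
    rwa [h2] at this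

/-- (T1) -/
theorem mem_Lset_omega3 {ν : Ordinal.{0}} (hν : ν < Ordinal.omega 3) {a : ZFSet.{0}}
    (ha : IsL a) (hs : a ⊆ ν.toZFSet) : a ∈ Lset (Ordinal.omega 3) := by
  have h3 : (3 : Ordinal.{0}) = 2 + 1 := by norm_num
  rw [h3] at hν ⊢
  obtain ⟨β, h1, h2⟩ := condense (Cardinal.aleph0_le_aleph 2) (card_le_aleph hν) ha hs
  exact Lset_mono (lt_omega_of_card h1).le h2

/-! ### Top codes -/

/-- (T2) -/
theorem exists_top_code {μ ν : Ordinal.{0}} (F : Filt μ ν) (hνμ : ν < μ)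
    (hμ : μ < Ordinal.omega 3)
    (hI : ∀ η < ν, ∀ τ < Ordinal.omega 3, NewV η τ → τ < μ)
    (hII : ∀ δ < Ordinal.omega 3, ∃ τ < Ordinal.omega 3, δ < τ ∧ NewV ν τ)
    {a : ZFSet.{0}} (ha : a ∈ Lset (Ordinal.omega 3)) (_ : a ⊆ ν.toZFSet) :
    ∃ c : Cd, IsCode F (Ordinal.omega 2) c ∧
      ∀ ξ < ν, (c.pr.M.E (c.pr.o ξ) c.pr.a ↔ ξ.toZFSet ∈ a) := by
  -- the level of `a`
  obtain ⟨α, hα, haα⟩ := mem_Lset.1 ha
  have hlim : Order.IsSuccLimit (Ordinal.omega 3) := by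
    rw [← Cardinal.ord_aleph]
    exact Cardinal.isSuccLimit_ord (Cardinal.aleph0_le_aleph 3)
  have hα1 : α + 1 < Ordinal.omega 3 := by
    rw [← Order.succ_eq_add_one]
    exact hlim.succ_lt hα
  have haα1 : a ∈ Lset (α + 1) := mem_Lset_succ haα
  -- the sequence
  choose t ht1 ht2 ht3 using hII
  let s : ℕ → Iio (Ordinal.omega.{0} 3) := fun n => Nat.rec
    ⟨t (max (α + 1) μ) (max_lt hα1 hμ), ht1 _ _⟩ (fun _ x => ⟨t x.1 x.2, ht1 _ _⟩) n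
  have hs0 : max (α + 1) μ < (s 0).1 := ht2 _ _
  have hss : ∀ n, (s n).1 < (s (n + 1)).1 := fun n => ht2 _ _
  have hsn : ∀ n, NewV ν (s n).1 := by
    intro n
    cases n with
    | zero => exact ht3 _ _
    | succ n => exact ht3 _ _
  let β : Ordinal.{0} := ⨆ n, (s n).1
  have hsβ : ∀ n, (s n).1 < β := fun n =>
    (hss n).trans_le (Ordinal.le_iSup (fun n => (s n).1) (n + 1))
  have hβs : ∀ x < β, ∃ n, x < (s n).1 := fun x hx => Ordinal.lt_iSup_iff.1 hx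
  have hβ : Order.IsSuccLimit β := by
    refine ⟨?_, Order.isSuccPrelimit_of_succ_lt fun x hx => ?_⟩
    · rw [isMin_iff_eq_bot]
      intro h0
      have := hsβ 0
      rw [h0] at this
      exact not_lt_bot this
    · obtain ⟨n, hn⟩ := hβs x hx
      exact (Order.succ_le_of_lt hn).trans_lt (hsβ n)
  have hμβ : μ < β := ((le_max_right _ _).trans_lt hs0).trans (hsβ 0)
  have hνβ : ν < β := hνμ.trans hμβ
  have haβ : a ∈ Lset β := Lset_mono (((le_max_left _ _).trans hs0.le).trans (hsβ 0).le) haα1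
  -- the hull
  let a' : (LM β).N := ⟨a, haβ⟩
  let o : Ordinal.{0} → (LM β).N := fun ξ => if h : ξ < β then LM.o ξ h else a'
  have ho : ∀ ξ (h : ξ < β), o ξ = LM.o ξ h := fun ξ h => dif_pos h
  have ho1 : ∀ ξ, ξ ≤ μ → (o ξ).1 = ξ.toZFSet := fun ξ h => by
    rw [ho ξ (h.trans_lt hμβ)]; rfl
  let Z : Set (LM β).N := {z | z = a' ∨ ∃ ξ ≤ μ, o ξ = z}
  have hEl := El_dcl (PL_LM hβ) Z
  have hPL := PL.of_el hEl (PL_LM hβ)
  have hoZ : ∀ ξ ≤ μ, o ξ ∈ dcl (LM β) Z := fun ξ hξ => subset_dcl (Or.inr ⟨ξ, hξ, rfl⟩)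
  have haZ : a' ∈ dcl (LM β) Z := subset_dcl (Or.inl rfl)
  let o' : Ordinal.{0} → ((LM β).sub (dcl (LM β) Z)).N := fun ξ =>
    if h : ξ ≤ μ then ⟨o ξ, hoZ ξ h⟩ else ⟨a', haZ⟩
  have ho' : ∀ ξ, ξ ≤ μ → (o' ξ).1 = o ξ := fun ξ h => by
    show (if h : ξ ≤ μ then (⟨o ξ, hoZ ξ h⟩ : ((LM β).sub (dcl (LM β) Z)).N) else ⟨a', haZ⟩).1 = _
    rw [dif_pos h]
  let P : Pr := ⟨(LM β).sub (dcl (LM β) Z), o', ⟨a', haZ⟩⟩
  have : Small.{0} P.M.N := inferInstanceAs (Small.{0} (dcl (LM β) Z))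
  have hPo : ∀ ξ, ξ ≤ μ → (P.o ξ).1.1 = ξ.toZFSet := fun ξ h => by
    show (o' ξ).1.1 = _
    rw [ho' ξ h, ho1 ξ h]
  have hPE : ∀ x y : P.M.N, P.M.E x y ↔ x.1.1 ∈ y.1.1 := fun x y => Iff.rfl
  have hpres : IsPres F (Ordinal.omega 2) P := by
    refine ⟨hPL, ?_, ?_, ?_, ?_, ?_⟩
    · intro ξ ζ hζ hξ
      rw [F.m_top] at hζ
      rw [hPE, hPo ζ hζ, hPo ξ (hξ.le.trans hζ)]
      exact Ordinal.toZFSet_mem_toZFSet_iff.2 hξ
    · intro ζ hζ x hx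
      rw [F.m_top] at hζ
      rw [hPE, hPo ζ hζ] at hx
      obtain ⟨ξ, hξ, h1⟩ := Ordinal.mem_toZFSet_iff.1 hx
      refine ⟨ξ, hξ, Subtype.ext (Subtype.ext ?_)⟩
      rw [hPo ξ (hξ.le.trans hζ), h1]
    · intro x
      refine dcl_of_map hEl (Z' := Z) x.2 ?_
      rintro z (rfl | ⟨ξ, hξ, rfl⟩)
      · exact ⟨⟨a', haZ⟩, Or.inl rfl, rfl⟩
      · refine ⟨P.o ξ, Or.inr ⟨ξ, ?_, rfl⟩, ho' ξ hξ⟩
        rw [F.m_top]
        exact hξ
    · rw [F.m_top, F.n_top]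
      rw [← hEl.cI]
      have h1 : (P.o μ).1 = LM.o μ hμβ := (ho' μ le_rfl).trans (ho μ hμβ)
      have h2 : (P.o ν).1 = LM.o ν hνβ := (ho' ν hνμ.le).trans (ho ν hνβ)
      show (LM β).cI (P.o μ).1 (P.o ν).1
      rw [h1, h2, LM_cI]
      intro η hη τ hτ h
      obtain ⟨n, hn⟩ := hβs τ hτ
      exact hI η hη τ (hn.trans (s n).2) h
    · rw [F.n_top]
      rw [← hEl.cII]
      have h2 : (P.o ν).1 = LM.o ν hνβ := (ho' ν hνμ.le).trans (ho ν hνβ)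
      show (LM β).cII (P.o ν).1
      rw [h2, LM_cII]
      intro δ hδ
      obtain ⟨n, hn⟩ := hβs δ hδ
      exact ⟨(s n).1, hsβ n, hn, hsn n⟩
  obtain ⟨c, hc, e, he, hea, heo⟩ := exists_code le_rfl hpres
  refine ⟨c, hc, fun ξ hξ => ?_⟩
  have hξμ : ξ ≤ μ := hξ.le.trans hνμ.le
  rw [← hea, ← heo ξ (by rw [F.m_top]; exact hξμ), he.E, hPE, hPo ξ hξμ]

/-! ### The number of codes -/

/-- (T3) -/
lemma code_lt {μ ν : Ordinal.{0}} {F : Filt μ ν} {γ : Ordinal.{0}} (hγ : γ < Ordinal.omega 2)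
    {c : Cd} (hc : IsCode F γ c) : c.β < Ordinal.omega 2 := by
  have h2 : (2 : Ordinal.{0}) = 1 + 1 := by norm_num
  have hm := F.m_lt γ hγ
  rw [h2] at hm ⊢
  refine lt_omega_of_card (card_le_of_mk_LM ?_)
  have h1 : dcl c.pr.M (c.pr.gens (F.m γ)) = univ := Set.eq_univ_of_forall hc.2.gen
  have h3 := mk_dcl_le' (M := c.pr.M) (Cardinal.aleph0_le_aleph 1)
    (mk_insert_Iic_le (Cardinal.aleph0_le_aleph 1) (card_le_aleph hm) c.pr.a c.pr.o)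
  have h4 : dcl c.pr.M {z | z = c.pr.a ∨ ∃ ξ ≤ F.m γ, c.pr.o ξ = z} = univ := h1
  rw [h4, Cardinal.mk_univ] at h3
  exact h3

/-- (T4) -/
lemma card_cd {b : Ordinal.{0}} (hb : b < Ordinal.omega 2) :
    Cardinal.mk {c : Cd // c.β < b} ≤ Cardinal.aleph.{1} 1 := by
  have h2 : (2 : Ordinal.{0}) = 1 + 1 := by norm_num
  rw [h2] at hb
  have hb' := card_le_aleph hb
  have hl : Cardinal.lift.{1} (Cardinal.aleph.{0} 1) = Cardinal.aleph.{1} 1 := by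
    rw [Cardinal.lift_aleph, Ordinal.lift_one]
  have hb1 : Cardinal.lift.{1} b.card ≤ Cardinal.aleph.{1} 1 := by
    rw [← hl]
    exact Cardinal.lift_le.2 hb'
  have h0 : Cardinal.aleph0 ≤ Cardinal.aleph.{1} 1 := Cardinal.aleph0_le_aleph 1
  have h1 : Function.Injective (fun c : {c : Cd // c.β < b} =>
      ((⟨c.1.β, c.2⟩, ⟨c.1.a.1, Lset_mono c.2.le c.1.a.2⟩) : Iio b × {x // x ∈ Lset b})) := by
    intro c c' h
    have h3 := congrArg (fun p => (p.1.1 : Ordinal.{0})) h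
    have h4 := congrArg (fun p => (p.2.1 : ZFSet.{0})) h
    exact Subtype.ext (Cd.ext' h3 h4)
  refine (Cardinal.mk_le_of_injective h1).trans ?_
  rw [Cardinal.mk_prod, Cardinal.lift_id, Cardinal.lift_id]
  refine Cardinal.mul_le_of_le h0 ?_ ?_
  · rw [Cardinal.mk_Iio_ordinal]
    exact hb1
  · exact (mk_Lset_le b).trans (max_le h0 hb1)

end Pool.MP_dc7230_lc
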